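import Pool.Agent.Lib.MP_8a4e59_co.Basic

set_option autoImplicit false

/-! Basic facts about `nn`, `ee`, `bohr`. (helper45) -/

namespace Pool.Agent.APP

open Finset

lemma nn_add (x y : ℝ) : nn (x + y) ≤ nn x + nn y := by
  have h := nn_le_abs_sub (x + y) (round x + round y)
  refine h.trans ?_
  have : x + y - ((round x + round y : ℤ) : ℝ) = (x - round x) + (y - round y) := by
    push_cast; ring
  rw [this]
  exact abs_add_le _ _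

lemma nn_sub (x y : ℝ) : nn (x - y) ≤ nn x + nn y := by
  rw [sub_eq_add_neg]
  refine (nn_add _ _).trans ?_
  rw [nn_neg]

lemma ee_sum {ι : Type*} (s : Finset ι) (f : ι → ℝ) : ee (∑ i ∈ s, f i) = ∏ i ∈ s, ee (f i) := by
  classical
  induction s using Finset.induction_on with
  | empty => simp [ee_zero]
  | insert a s ha ih => rw [Finset.sum_insert ha, Finset.prod_insert ha, ee_add, ih]

lemma mem_bohr {N : ℝ} {Θ : Finset ℝ} {ρ : ℝ} {n : ℤ} :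
    n ∈ bohr N Θ ρ ↔ |(n : ℝ)| ≤ ρ * N ∧ ∀ θ ∈ Θ, nn (θ * n) ≤ ρ := by
  classical
  unfold bohr
  rw [Finset.mem_filter, Finset.mem_Icc, abs_le]
  constructor
  · rintro ⟨⟨h1, h2⟩, h3⟩
    refine ⟨⟨?_, ?_⟩, h3⟩
    · have : -n ≤ ⌊ρ * N⌋ := by omega
      have := Int.le_floor.1 this
      push_cast at this; linarith
    · exact Int.le_floor.1 h2
  · rintro ⟨⟨h1, h2⟩, h3⟩
    refine ⟨⟨?_, ?_⟩, h3⟩
    · have : -n ≤ ⌊ρ * N⌋ := Int.le_floor.2 (by push_cast; linarith)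
      omega
    · exact Int.le_floor.2 h2

lemma zero_mem_bohr {N : ℝ} {Θ : Finset ℝ} {ρ : ℝ} (hN : 0 ≤ N) (hρ : 0 ≤ ρ) : (0 : ℤ) ∈ bohr N Θ ρ := by
  rw [mem_bohr]
  refine ⟨by simpa using mul_nonneg hρ hN, fun θ _ => by simpa [nn_zero] using hρ⟩

lemma bohr_nonempty {N : ℝ} {Θ : Finset ℝ} {ρ : ℝ} (hN : 0 ≤ N) (hρ : 0 ≤ ρ) : (bohr N Θ ρ).Nonempty :=
  ⟨0, zero_mem_bohr hN hρ⟩

lemma bohr_card_pos {N : ℝ} {Θ : Finset ℝ} {ρ : ℝ} (hN : 0 ≤ N) (hρ : 0 ≤ ρ) :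
    0 < ((bohr N Θ ρ).card : ℝ) := by
  exact_mod_cast (bohr_nonempty hN hρ).card_pos

lemma neg_mem_bohr {N : ℝ} {Θ : Finset ℝ} {ρ : ℝ} {n : ℤ} (h : n ∈ bohr N Θ ρ) : -n ∈ bohr N Θ ρ := by
  rw [mem_bohr] at h ⊢
  refine ⟨by push_cast; rw [abs_neg]; exact h.1, fun θ hθ => ?_⟩
  have := h.2 θ hθ
  push_cast; rw [mul_neg, nn_neg]; exact this

lemma add_mem_bohr {N : ℝ} {Θ : Finset ℝ} {ρ σ : ℝ} {a b : ℤ} (ha : a ∈ bohr N Θ ρ)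
    (hb : b ∈ bohr N Θ σ) : a + b ∈ bohr N Θ (ρ + σ) := by
  rw [mem_bohr] at ha hb ⊢
  refine ⟨?_, fun θ hθ => ?_⟩
  · push_cast; rw [add_mul]; exact (abs_add_le _ _).trans (add_le_add ha.1 hb.1)
  · push_cast; rw [mul_add]; exact (nn_add _ _).trans (add_le_add (ha.2 θ hθ) (hb.2 θ hθ))

lemma sub_mem_bohr {N : ℝ} {Θ : Finset ℝ} {ρ σ : ℝ} {a b : ℤ} (ha : a ∈ bohr N Θ ρ)
    (hb : b ∈ bohr N Θ σ) : a - b ∈ bohr N Θ (ρ + σ) := by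
  rw [sub_eq_add_neg]; exact add_mem_bohr ha (neg_mem_bohr hb)

lemma bohr_mono {N : ℝ} {Θ : Finset ℝ} {ρ σ : ℝ} (hN : 0 ≤ N) (h : ρ ≤ σ) : bohr N Θ ρ ⊆ bohr N Θ σ := by
  intro n hn
  rw [mem_bohr] at hn ⊢
  exact ⟨hn.1.trans (mul_le_mul_of_nonneg_right h hN), fun θ hθ => (hn.2 θ hθ).trans h⟩

lemma bohr_mono_N {N N' : ℝ} {Θ : Finset ℝ} {ρ : ℝ} (hρ : 0 ≤ ρ) (h : N' ≤ N) : bohr N' Θ ρ ⊆ bohr N Θ ρ := by
  intro n hn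
  rw [mem_bohr] at hn ⊢
  exact ⟨hn.1.trans (mul_le_mul_of_nonneg_left h hρ), hn.2⟩

lemma bohr_anti {N : ℝ} {Θ Θ' : Finset ℝ} {ρ : ℝ} (h : Θ ⊆ Θ') : bohr N Θ' ρ ⊆ bohr N Θ ρ := by
  intro n hn
  rw [mem_bohr] at hn ⊢
  exact ⟨hn.1, fun θ hθ => hn.2 θ (h hθ)⟩

lemma kap_pos {R : ℕ} {ε : ℝ} (hε : 0 < ε) : 0 < kap R ε := by
  unfold kap; positivity

lemma kap_le {R : ℕ} {ε : ℝ} (hε : 0 ≤ ε) : kap R ε ≤ ε / 100 := by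
  unfold kap
  apply div_le_div_of_nonneg_left hε (by norm_num)
  have : (0:ℝ) ≤ R := Nat.cast_nonneg R
  linarith

end Pool.Agent.APP
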