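import Pool.Agent.Lib.MP_8a4e59_co.A.P.A2
import Pool.Agent.Lib.MP_8a4e59_co.A.P.dbl
import Pool.Agent.Lib.MP_8a4e59_co.A.P.size
import Pool.Agent.Lib.MP_8a4e59_co.A.P.reg
import Pool.Agent.Lib.MP_8a4e59_co.A.P.shift
import Pool.Agent.Lib.MP_8a4e59_co.A.P.rudin
import Pool.Agent.Lib.MP_8a4e59_co.A.P.chang
import Pool.Agent.Lib.MP_8a4e59_co.A.P.hoeff
import Pool.Agent.Lib.MP_8a4e59_co.A.P.cs
import Pool.Agent.Lib.MP_8a4e59_co.A.P.walk
import Pool.Agent.Lib.MP_8a4e59_co.A.P.four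

set_option autoImplicit false

namespace Pool.Agent.APP

theorem t_dbl : S_dbl := p_dbl
theorem t_size : S_size := p_size
theorem t_reg : S_reg := p_reg p_dbl
theorem t_shift : S_shift := p_shift
theorem t_A2 : S_A2 := p_A2 p_shift (p_chang p_rudin) (p_cs p_hoeff) p_walk p_four

end Pool.Agent.APP
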