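import Pool.Agent.Lib.MP_8a4e59_co.A.Basic

set_option autoImplicit false

/-!
Statements of the pieces A0 (Bohr facts), A3 (Rudin-Chang), A2 (structure lemma) of part A. (helper45)
Text: /team-store/APP_A.md.  Every `S_x` is proved in `A/P/<x>.lean` as `theorem p_x : S_x`.
-/

namespace Pool.Agent.APP

open Finset

/-! ### A0: Bohr sets -/

/-- (A0.2) doubling. -/
def S_dbl : Prop := ∀ (N : ℝ) (Θ : Finset ℝ) (ρ : ℝ), 0 < N → 0 < ρ →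
  ((bohr N Θ ρ).card : ℝ) ≤ 4 ^ (Θ.card + 1) * ((bohr N Θ (ρ / 2)).card : ℝ)

/-- (A0.3) size. -/
def S_size : Prop := ∀ (N : ℝ) (Θ : Finset ℝ) (ρ : ℝ), 0 < N → 0 < ρ → ρ ≤ 1 / 2 →
  ρ * N * (ρ / 2) ^ Θ.card ≤ ((bohr N Θ ρ).card : ℝ)

/-- (A0.4) existence of regular radii. -/
def S_reg : Prop := ∀ (N : ℝ) (Θ : Finset ℝ) (ρ₀ ε : ℝ), 0 < N → 0 < ρ₀ → 0 < ε → ε ≤ 1 →
  ∃ ρ : ℝ, ρ₀ / 2 ≤ ρ ∧ ρ ≤ ρ₀ ∧ Reg ε N Θ ρ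

/-- (A0.5) regular Bohr sets are almost invariant. -/
def S_shift : Prop := ∀ (N : ℝ) (Θ : Finset ℝ) (ρ ε : ℝ) (b : ℤ), 0 < N → 0 < ρ → 0 < ε → ε ≤ 1 →
  Reg ε N Θ ρ → b ∈ bohr N Θ (kap Θ.card ε * ρ) →
  (((bohr N Θ ρ).filter (fun n => n - b ∉ bohr N Θ ρ)).card : ℝ) ≤ ε * ((bohr N Θ ρ).card : ℝ) ∧
  (((bohr N Θ ρ).filter (fun n => n + b ∉ bohr N Θ ρ)).card : ℝ) ≤ ε * ((bohr N Θ ρ).card : ℝ)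

/-! ### A3: Rudin-Chang -/

/-- average of an exponential over a finite set -/
noncomputable def ahat (T : Finset ℤ) (γ : ℝ) : ℂ := (∑ t ∈ T, ee (γ * t)) / (T.card : ℂ)

/-- `Γ` is dissociated with respect to `B` at level `κ`. -/
def Diss (B : Finset ℤ) (κ : ℝ) (Γ : Finset ℝ) : Prop :=
  ∀ σ : ℝ → ℤ, (∀ c ∈ Γ, σ c = -1 ∨ σ c = 0 ∨ σ c = 1) → (∃ c ∈ Γ, σ c ≠ 0) →
    ‖ahat B (∑ c ∈ Γ, (σ c : ℝ) * c)‖ < κ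

/-- Rudin: a dissociated subset of the large spectrum is small. -/
def S_rudin : Prop := ∀ (T B : Finset ℤ) (τ : ℝ) (Γ : Finset ℝ) (m : ℕ), T ⊆ B → T.Nonempty → 0 < τ → τ ≤ 1 →
  τ * (B.card : ℝ) ≤ T.card → Diss B (Real.exp (-((m : ℝ) + 1))) Γ → Γ.card ≤ m + 1 →
  (∀ c ∈ Γ, 1 / 2 ≤ ‖ahat T c‖) → (Γ.card : ℝ) ≤ 8 * Real.log (2 / τ)

/-- Chang: the large spectrum of `T` is spanned, up to large Fourier coefficients of `B`. -/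
def S_chang : Prop := ∀ (T B : Finset ℤ) (τ : ℝ) (m : ℕ), T ⊆ B → T.Nonempty → 0 < τ → τ ≤ 1 →
  τ * (B.card : ℝ) ≤ T.card → 8 * Real.log (2 / τ) ≤ m →
  ∃ Γ : Finset ℝ, Γ.card ≤ m ∧ ∀ γ : ℝ, 1 / 2 ≤ ‖ahat T γ‖ →
    ∃ σ : ℝ → ℤ, (∀ c ∈ Γ, σ c = -1 ∨ σ c = 0 ∨ σ c = 1) ∧
      Real.exp (-((m : ℝ) + 1)) ≤ ‖ahat B (γ + ∑ c ∈ Γ, (σ c : ℝ) * c)‖

/-! ### A2: Croot-Sisask and Fourier -/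

/-- Hoeffding by counting. -/
def S_hoeff : Prop := ∀ (A : Finset ℤ) (k : ℕ) (u : ℤ → ℝ) (d : ℝ), A.Nonempty → (∀ a ∈ A, |u a| ≤ 1) →
  ∑ a ∈ A, u a = 0 → 0 < d → d ≤ 2 →
  (((Fintype.piFinset (fun _ : Fin k => A)).filter (fun c => (k : ℝ) * d < |∑ j, u (c j)|)).card : ℝ) ≤
    2 * Real.exp (-((k : ℝ) * d ^ 2 / 4)) * (A.card : ℝ) ^ k

/-- `Φ(x) = P_{a ∈ A₁}(a - x ∈ S)` -/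
noncomputable def Phi (A₁ S : Finset ℤ) (x : ℤ) : ℝ :=
  ((A₁.filter (fun a => a - x ∈ S)).card : ℝ) / (A₁.card : ℝ)

/-- Croot-Sisask almost periodicity (`L` = allowed size of the exceptional sets). -/
def S_cs : Prop := ∀ (A₁ S B₅ B₆ C : Finset ℤ) (k : ℕ) (d K L : ℝ), A₁.Nonempty → B₆.Nonempty →
  (∀ a ∈ A₁, ∀ t ∈ B₆, a + t ∈ C) → (C.card : ℝ) ≤ K * A₁.card → 1 ≤ k → 0 < d → d ≤ 1 → 0 < L →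
  4 * Real.exp (-((k : ℝ) * d ^ 2 / 4)) * (B₅.card : ℝ) ≤ L →
  ∃ (g : ℤ → ℝ) (T : Finset ℤ), T ⊆ B₆ ∧ (B₆.card : ℝ) ≤ 2 * K ^ k * T.card ∧
    ∀ t ∈ T, ((B₅.filter (fun x => d < |g (x + t) - Phi A₁ S x|)).card : ℝ) ≤ L

/-- `v = ∑ (t_j - t_j')` -/
def vsum {l : ℕ} (q : Fin l → ℤ × ℤ) : ℤ := ∑ j, ((q j).1 - (q j).2)

/-- the index set `(T × T)^l` -/
def TTl (T : Finset ℤ) (l : ℕ) : Finset (Fin l → ℤ × ℤ) := Fintype.piFinset (fun _ => T ×ˢ T)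

/-- The walk (telescoping) argument. -/
def S_walk : Prop := ∀ (f g : ℤ → ℝ) (T A₂ B₅ : Finset ℤ) (l : ℕ) (d L : ℝ), (∀ x, 0 ≤ f x ∧ f x ≤ 1) →
  0 ≤ d → 0 ≤ L →
  (∀ x ∈ A₂, ∀ j ≤ l, ∀ q ∈ TTl T j, x + vsum q ∈ B₅) →
  (∀ t ∈ T, ((B₅.filter (fun x => d < |g (x + t) - f x|)).card : ℝ) ≤ L) →
  ∀ q ∈ TTl T l, ∑ x ∈ A₂, |f (x + vsum q) - f x| ≤ (l : ℝ) * (2 * d * A₂.card + 2 * L)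

/-- `E_{a ∈ A₁, x ∈ A₂, v} 1_S(a - x - v - b)` -/
noncomputable def EE (S A₁ A₂ T : Finset ℤ) (l : ℕ) (b : ℤ) : ℝ :=
  (∑ a ∈ A₁, ∑ x ∈ A₂, ∑ q ∈ TTl T l, (if a - x - vsum q - b ∈ S then (1 : ℝ) else 0)) /
    ((A₁.card : ℝ) * A₂.card * (TTl T l).card)

/-- The Fourier step. -/
def S_four : Prop := ∀ (S A₁ A₂ T B : Finset ℤ) (l : ℕ) (s : ℝ), A₁.Nonempty → A₂.Nonempty → T.Nonempty →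
  B.Nonempty → (∀ γ : ℝ, ‖ahat T γ‖ ^ (2 * l) * ‖ahat B γ - 1‖ ≤ s) →
  |(∑ b ∈ B, EE S A₁ A₂ T l b) / (B.card : ℝ) - EE S A₁ A₂ T l 0| ≤ s * Real.sqrt ((S.card : ℝ) / A₁.card)

/-! The parameters of the structure lemma. -/

/-- `ℓ` -/
noncomputable def pl (τ δ : ℝ) : ℕ := ⌈Real.log (16 / (τ * δ))⌉₊

/-- `d₁` -/
noncomputable def pd (τ δ : ℝ) : ℝ := δ / (8 * pl τ δ)

/-- `k` -/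
noncomputable def pk (τ δ : ℝ) : ℕ := ⌈4 / pd τ δ ^ 2 * Real.log (8 / (τ * pd τ δ))⌉₊

/-- `τ'` -/
noncomputable def pt (τ δ : ℝ) : ℝ := 1 / 2 * (τ / 2) ^ pk τ δ

/-- `m` -/
noncomputable def pm (τ δ : ℝ) : ℕ := ⌈8 * Real.log (2 / pt τ δ)⌉₊

/-- `e₆` -/
noncomputable def pe (τ δ : ℝ) : ℝ := δ * τ * Real.exp (-((pm τ δ : ℝ) + 1)) / 16

/-- (A2) The structure lemma. -/
def S_A2 : Prop := ∀ (N : ℝ) (Θ : Finset ℝ) (ρ₄ ρ₅ ρ₆ τ δ : ℝ) (A₁ A₂ S : Finset ℤ), 0 < N → 0 < ρ₆ → ρ₆ ≤ ρ₅ →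
  ρ₅ ≤ ρ₄ → 0 < τ → τ ≤ 1 / 2 → 0 < δ → δ ≤ 1 / 2 →
  ((bohr N Θ (ρ₄ + ρ₅ + 2 * pl τ δ * ρ₆ + ρ₆)).card : ℝ) ≤ 2 * ((bohr N Θ ρ₄).card : ℝ) →
  ((bohr N Θ (ρ₅ + 2 * pl τ δ * ρ₆)).card : ℝ) ≤ 2 * ((bohr N Θ ρ₅).card : ℝ) →
  Reg (pe τ δ) N Θ ρ₆ →
  A₁ ⊆ bohr N Θ ρ₄ → A₂ ⊆ bohr N Θ ρ₅ → τ * ((bohr N Θ ρ₄).card : ℝ) ≤ A₁.card →
  τ * ((bohr N Θ ρ₅).card : ℝ) ≤ A₂.card →
  (1 - δ) * ((A₁.card : ℝ) * A₂.card) ≤ ∑ a ∈ A₁, ∑ x ∈ A₂, (if a - x ∈ S then (1 : ℝ) else 0) →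
  ∃ Γ : Finset ℝ, Γ.card ≤ pm τ δ ∧ ∀ N' ρ' : ℝ, 0 < N' → N' ≤ N → 0 < ρ' →
    ρ' ≤ kap Θ.card (pe τ δ) * ρ₆ → ρ' ≤ δ * τ / (64 * (pm τ δ + 1)) →
    ∃ w : ℤ, (1 - 2 * δ) * ((bohr N' (Θ ∪ Γ) ρ').card : ℝ) ≤
      (((bohr N' (Θ ∪ Γ) ρ').filter (fun b => w + b ∈ S)).card : ℝ)

end Pool.Agent.APP
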