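import Pool.Agent.Lib.MP_8a4e59_co.A.CloseA
import Pool.Agent.Lib.MP_8a4e59_co.A.P.unbal
import Pool.Agent.Lib.MP_8a4e59_co.A.P.pos
import Pool.Agent.Lib.MP_8a4e59_co.A.P.dec
import Pool.Agent.Lib.MP_8a4e59_co.A.P.smooth
import Pool.Agent.Lib.MP_8a4e59_co.A.P.sift
import Pool.Agent.Lib.MP_8a4e59_co.A.P.core
import Pool.Agent.Lib.MP_8a4e59_co.A.P.momA
import Pool.Agent.Lib.MP_8a4e59_co.A.P.momB
import Pool.Agent.Lib.MP_8a4e59_co.A.P.local
import Pool.Agent.Lib.MP_8a4e59_co.A.P.pm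
import Pool.Agent.Lib.MP_8a4e59_co.A.P.stage

set_option autoImplicit false

namespace Pool.Agent.APP

theorem t_core : S_core := p_core p_sift t_A2 t_reg
theorem t_unbal : S_unbal := p_unbal pm_two
theorem t_momA : S_momA := p_momA pm_one
theorem t_momB : S_momB := p_momB pm_one t_unbal p_pos
theorem t_local : S_local := p_local p_dec p_smooth
theorem t_stage : S_stage := p_stage t_reg

end Pool.Agent.APP
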