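import Pool.Agent.Lib.MP_8a4e59_co.A.CloseB
import Pool.Agent.Lib.MP_8a4e59_co.A.P.scale
import Pool.Agent.Lib.MP_8a4e59_co.A.P.par1
import Pool.Agent.Lib.MP_8a4e59_co.A.P.par2
import Pool.Agent.Lib.MP_8a4e59_co.A.P.few
import Pool.Agent.Lib.MP_8a4e59_co.A.P.avg
import Pool.Agent.Lib.MP_8a4e59_co.A.P.point
import Pool.Agent.Lib.MP_8a4e59_co.A.P.thmA

set_option autoImplicit false

/-! Unconditional form of Theorem A (flatness). -/

namespace Pool.Agent.APP

theorem t_scale : S_scale := p_scale t_reg
theorem t_par2 : S_par2 := p_par2 p_par1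
theorem t_few : S_few := p_few t_shift
theorem t_avg : S_avg := p_avg t_shift
theorem t_point : S_point := p_point t_core t_momA t_momB t_local t_shift
theorem t_thmA : S_thmA := p_thmA t_par2 t_scale t_reg t_point t_few t_avg

end Pool.Agent.APP
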