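import Pool.Agent.Lib.MP_8a4e59_co.A.StmA

set_option autoImplicit false

/-!
Statements of the pieces A1 (sifting, KM-core), A4 - A8 of part A. (helper45)
Text: /team-store/APP_A.md.  Every `S_x` is proved in `A/P/<x>.lean` as `theorem p_x : S_x`.
Only integer powers are used (moment bounds instead of norms).
-/

namespace Pool.Agent.APP

open Finset

/-- indicator of a finite set -/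
noncomputable def ind (X : Finset ℤ) (n : ℤ) : ℝ := if n ∈ X then 1 else 0

/-- `(f ∘ g)(x) = ∑_y f(y) g(y+x)` -/
noncomputable def cor (f g : ℤ → ℝ) (x : ℤ) : ℝ := ∑ᶠ y, f y * g (y + x)

/-- `(f * g)(x) = ∑_y f(y) g(x-y)` -/
noncomputable def con (f g : ℤ → ℝ) (x : ℤ) : ℝ := ∑ᶠ y, f y * g (x - y)

/-- `#{y ∈ X : y + v ∈ X}` -/
noncomputable def rr (X : Finset ℤ) (v : ℤ) : ℝ := ((X.filter (fun y => y + v ∈ X)).card : ℝ)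

/-- average of `G(2(b+b'-c-c'))`, `b, c ∈ B₄`, `b', c' ∈ B₅` -/
noncomputable def Env (B₄ B₅ : Finset ℤ) (G : ℤ → ℝ) : ℝ :=
  (∑ u ∈ B₄ ×ˢ B₅, ∑ w ∈ B₄ ×ˢ B₅, G (2 * ((u.1 + u.2) - (w.1 + w.2)))) / ((B₄.card : ℝ) * B₅.card) ^ 2

/-! ### power means and unbalancing -/

/-- power mean inequality, integer exponents -/
def S_pm : Prop := ∀ (ι : Type) (Ω : Finset ι) (Y : ι → ℝ) (K : ℝ) (p q : ℕ), (∀ i ∈ Ω, 0 ≤ Y i) → 0 < K →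
  1 ≤ p → p ≤ q → ∑ i ∈ Ω, Y i ^ q ≤ K ^ q * Ω.card → ∑ i ∈ Ω, Y i ^ p ≤ K ^ p * Ω.card

/-- power mean inequality, lower bounds -/
def S_pm2 : Prop := ∀ (ι : Type) (Ω : Finset ι) (Y : ι → ℝ) (K : ℝ) (p q : ℕ), (∀ i ∈ Ω, 0 ≤ Y i) → 0 < K →
  1 ≤ p → p ≤ q → K ^ p * Ω.card ≤ ∑ i ∈ Ω, Y i ^ p → K ^ q * Ω.card ≤ ∑ i ∈ Ω, Y i ^ q

/-- (A5) Unbalancing. -/
def S_unbal : Prop := ∀ (ι : Type) (Ω : Finset ι) (F : ι → ℝ) (ζ : ℝ) (p p' : ℕ), Ω.Nonempty → 0 < ζ → ζ ≤ 1 →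
  1 ≤ p → (∀ k, Odd k → 0 ≤ ∑ i ∈ Ω, F i ^ k) → ζ ^ p * Ω.card ≤ ∑ i ∈ Ω, |F i| ^ p →
  8 * (p + 5) / ζ * Real.log (6 / ζ) ≤ p' → (1 + ζ / 4) ^ p' * Ω.card ≤ ∑ i ∈ Ω, |1 + F i| ^ p'

/-! ### A6, A7: decoupling, positivity, smoothing -/

/-- (A6a) positivity. -/
def S_pos : Prop := ∀ (B₄ B₅ : Finset ℤ) (f : ℤ → ℝ) (k : ℕ), (Function.support f).Finite →
  0 ≤ Env B₄ B₅ (fun v => cor f f v ^ k)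

/-- (A6b) decoupling, `p = 2 j` (the moments of `f ∘ f` are nonnegative by (A6a)). -/
def S_dec : Prop := ∀ (B₄ B₅ : Finset ℤ) (f f' : ℤ → ℝ) (j : ℕ) (t : ℤ) (K : ℝ), (Function.support f).Finite →
  (Function.support f').Finite → 0 ≤ K → Env B₄ B₅ (fun v => cor f f v ^ (2 * j)) ≤ K →
  Env B₄ B₅ (fun v => cor f' f' v ^ (2 * j)) ≤ K → Env B₄ B₅ (fun v => con f f' (t + v) ^ (2 * j)) ≤ K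

/-- (A7) smoothing. -/
def S_smooth : Prop := ∀ (B₂ B₂p B₄ B₅ : Finset ℤ) (ψ : ℤ → ℝ) (M : ℝ), B₄.Nonempty → B₅.Nonempty →
  (∀ x, 0 ≤ ψ x) → (∀ y ∈ B₂, ∀ u ∈ B₄ ×ˢ B₅, ∀ w ∈ B₄ ×ˢ B₅, y - ((u.1 + u.2) - (w.1 + w.2)) ∈ B₂p) →
  (B₂p.card : ℝ) ≤ 2 * B₂.card → (∀ t : ℤ, Env B₄ B₅ (fun v => ψ (t + v)) ≤ M) →
  ∑ y ∈ B₂, ψ (2 * y) ≤ 2 * B₂.card * M

/-! ### A1: sifting and the KM-core -/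

/-- (A1, steps 1 and 2) sifting; `τ = D^p/4`, `δ = ε/20`. -/
def S_sift : Prop := ∀ (X B₄ B₅ : Finset ℤ) (ε D : ℝ) (p : ℕ), B₄.Nonempty → B₅.Nonempty → X.Nonempty →
  0 < ε → ε ≤ 1 → 0 < D → D ≤ 1 → 1 ≤ p → 4 / ε * Real.log (80 / ε) ≤ p →
  ((1 + ε) * D * X.card) ^ p < Env B₄ B₅ (fun v => rr X v ^ p) →
  ∃ (z : ℤ) (D₁ D₂ : Finset ℤ), D₁ ⊆ B₄ ∧ D₂ ⊆ B₅ ∧ D ^ p / 4 * (B₄.card : ℝ) ≤ D₁.card ∧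
    D ^ p / 4 * (B₅.card : ℝ) ≤ D₂.card ∧
    (((D₁ ×ˢ D₂).filter (fun c => rr X (2 * (z + (c.1 - c.2))) < (1 + ε / 2) * D * X.card)).card : ℝ) ≤
      ε / 20 * ((D₁.card : ℝ) * D₂.card)

/-- the radius `r₀` of the KM-core -/
noncomputable def pr (R : ℕ) (τ δ ρ₆ : ℝ) : ℝ :=
  1 / 2 * min (kap R (pe τ δ) * ρ₆) (δ * τ / (64 * (pm τ δ + 1)))

/-- (A1) KM-core. -/
def S_core : Prop := ∀ (A X : Finset ℤ) (N : ℝ) (Θ : Finset ℝ) (ρ₄ ρ₅ ρ₆ ε D ε₀ : ℝ) (p : ℕ), X ⊆ A → 0 < N →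
  0 < ρ₆ → ρ₆ ≤ ρ₅ → ρ₅ ≤ ρ₄ → 0 < ε → ε ≤ 1 → 0 < D → D ≤ 1 → 0 < ε₀ → ε₀ ≤ 1 → 1 ≤ p →
  4 / ε * Real.log (80 / ε) ≤ p →
  ((bohr N Θ (ρ₄ + ρ₅ + 2 * pl (D ^ p / 4) (ε / 20) * ρ₆ + ρ₆)).card : ℝ) ≤ 2 * ((bohr N Θ ρ₄).card : ℝ) →
  ((bohr N Θ (ρ₅ + 2 * pl (D ^ p / 4) (ε / 20) * ρ₆)).card : ℝ) ≤ 2 * ((bohr N Θ ρ₅).card : ℝ) →
  Reg (pe (D ^ p / 4) (ε / 20)) N Θ ρ₆ →
  (∀ (Θ' : Finset ℝ) (ρ' : ℝ), Θ ⊆ Θ' → Θ'.card ≤ Θ.card + pm (D ^ p / 4) (ε / 20) →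
    pr Θ.card (D ^ p / 4) (ε / 20) ρ₆ ≤ ρ' → ρ' ≤ 2 * pr Θ.card (D ^ p / 4) (ε / 20) ρ₆ →
    Reg ε₀ (N / 2) Θ' ρ' → ∀ y : ℤ, cnt A y 2 (bohr (N / 2) Θ' ρ') ≤ D * ((bohr (N / 2) Θ' ρ').card : ℝ)) →
  Env (bohr N Θ ρ₄) (bohr N Θ ρ₅) (fun v => rr X v ^ p) ≤ ((1 + ε) * D * X.card) ^ p

/-! ### A4: moments of balanced functions -/

/-- the balanced function -/
noncomputable def bal (X P : Finset ℤ) (α : ℝ) (n : ℤ) : ℝ := ind X n - α * ind P n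

/-- almost invariance of `P` under all shifts `v = 2(b+b'-c-c')` -/
def AInv (P B₄ B₅ : Finset ℤ) (e₁ : ℝ) : Prop :=
  ∀ u ∈ B₄ ×ˢ B₅, ∀ w ∈ B₄ ×ˢ B₅,
    ((P.filter (fun n => n + 2 * ((u.1 + u.2) - (w.1 + w.2)) ∉ P)).card : ℝ) ≤ e₁ * P.card

/-- (A4a) -/
def S_momA : Prop := ∀ (B₄ B₅ P X : Finset ℤ) (α η ε e₁ : ℝ) (p q : ℕ), B₄.Nonempty → B₅.Nonempty → P.Nonempty →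
  X ⊆ P → 0 < α → α ≤ 1 → 0 ≤ η → η ≤ 1 / 10 → 0 ≤ ε → ε ≤ 1 / 10 → 0 ≤ e₁ → e₁ ≤ α / 10 →
  AInv P B₄ B₅ e₁ → (X.card : ℝ) ≤ (1 + η) * α * P.card →
  Env B₄ B₅ (fun v => rr X v ^ q) ≤ ((1 + η) ^ 2 * (1 + ε) * α ^ 2 * P.card) ^ q → 1 ≤ p → p ≤ q →
  Env B₄ B₅ (fun v => |cor (bal X P α) (bal X P α) v| ^ p) ≤ (8 * α ^ 2 * P.card) ^ p

/-- (A4b) -/
def S_momB : Prop := ∀ (B₄ B₅ P X : Finset ℤ) (α η β ε e₁ ζ : ℝ) (p q : ℕ), B₄.Nonempty → B₅.Nonempty → P.Nonempty →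
  X ⊆ P → 0 < α → α ≤ 1 → 0 ≤ η → η ≤ 1 / 10 → 0 ≤ ε → ε ≤ 1 / 10 → 0 ≤ β → 0 ≤ e₁ → e₁ ≤ α / 10 →
  AInv P B₄ B₅ e₁ → (X.card : ℝ) ≤ (1 + η) * α * P.card → (1 - β) * α * P.card ≤ (X.card : ℝ) →
  Env B₄ B₅ (fun v => rr X v ^ q) ≤ ((1 + η) ^ 2 * (1 + ε) * α ^ 2 * P.card) ^ q → 1 ≤ p →
  0 < ζ → ζ ≤ 1 → 16 * (2 * ε + 4 * η + 2 * β + 4 * e₁ / α) ≤ ζ →
  8 * (p + 5) / ζ * Real.log (6 / ζ) + 1 ≤ q →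
  Env B₄ B₅ (fun v => |cor (bal X P α) (bal X P α) v| ^ p) ≤ (ζ * α ^ 2 * P.card) ^ p

/-! ### A8: local count -/

/-- `∑_{y ∈ B₂} ∑_{k ∈ B₃} 1_{A₁}(y-k) 1_{A₂}(y) 1_{A₃}(y+k)` -/
noncomputable def lct (A₁ A₂ A₃ B₂ B₃ : Finset ℤ) : ℝ :=
  (((B₂ ×ˢ B₃).filter (fun c => c.1 - c.2 ∈ A₁ ∧ c.1 ∈ A₂ ∧ c.1 + c.2 ∈ A₃)).card : ℝ)

/-- (A8) local count; `K` bounds the `2j`-th moments. -/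
def S_local : Prop := ∀ (A₁ A₂ A₃ B₂ B₂p B₃ B₄ B₅ : Finset ℤ) (α e₁ K : ℝ) (j : ℕ), B₄.Nonempty → B₅.Nonempty →
  B₃.Nonempty → (∀ n ∈ B₃, -n ∈ B₃) → 0 < α → α ≤ 1 → 0 ≤ e₁ → 0 < K → 1 ≤ j →
  (∀ y ∈ B₂, ((B₃.filter (fun n => n + y ∉ B₃)).card : ℝ) ≤ e₁ * B₃.card) →
  (∀ y ∈ B₂, ((B₃.filter (fun n => n - y ∉ B₃)).card : ℝ) ≤ e₁ * B₃.card) →
  (∀ y ∈ B₂, ((B₃.filter (fun n => 2 * y - n ∉ B₃)).card : ℝ) ≤ e₁ * B₃.card) →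
  (∀ y ∈ B₂, ∀ u ∈ B₄ ×ˢ B₅, ∀ w ∈ B₄ ×ˢ B₅, y - ((u.1 + u.2) - (w.1 + w.2)) ∈ B₂p) →
  (B₂p.card : ℝ) ≤ 2 * B₂.card → ((A₂ ∩ B₂).card : ℝ) ≤ 2 * α * B₂.card →
  4 * Real.log (2 / α) ≤ j →
  Env B₄ B₅ (fun v => |cor (bal (A₁ ∩ B₃) B₃ α) (bal (A₁ ∩ B₃) B₃ α) v| ^ (2 * j)) ≤ K ^ (2 * j) →
  Env B₄ B₅ (fun v => |cor (bal (A₃ ∩ B₃) B₃ α) (bal (A₃ ∩ B₃) B₃ α) v| ^ (2 * j)) ≤ K ^ (2 * j) →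
  |lct A₁ A₂ A₃ B₂ B₃ - ((A₂ ∩ B₂).card : ℝ) * (α * ((A₁ ∩ B₃).card : ℝ) + α * ((A₃ ∩ B₃).card : ℝ) -
    α ^ 2 * B₃.card)| ≤ 12 * α * B₂.card * K + 10 * e₁ * B₂.card * B₃.card

end Pool.Agent.APP
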