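import Pool.Agent.Lib.MP_8a4e59_co.A.StmB
import Pool.Agent.Lib.MP_8a4e59_co.IfaceA

set_option autoImplicit false

/-!
Statements of the pieces of A9 (flatness theorem) and A10 (stable stage) of part A. (helper60)
Text: /team-store/APP_A.md.  Every `S_x` is proved in `A/P/<x>.lean` as `theorem p_x : (hyps) → S_x`.
-/

namespace Pool.Agent.APP

open Finset

/-- `{n : x + e n ∈ A}` (for `e ≥ 1`) -/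
noncomputable def pre (A : Finset ℤ) (x : ℤ) (e : ℕ) : Finset ℤ :=
  (A.image (fun a => (a - x) / (e : ℤ))).filter (fun n => x + (e : ℤ) * n ∈ A)

lemma mem_pre {A : Finset ℤ} {x : ℤ} {e : ℕ} {n : ℤ} (he : 1 ≤ e) :
    n ∈ pre A x e ↔ x + (e : ℤ) * n ∈ A := by
  unfold pre
  rw [Finset.mem_filter]
  refine ⟨fun h => h.2, fun h => ⟨?_, h⟩⟩
  rw [Finset.mem_image]
  refine ⟨_, h, ?_⟩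
  have : x + (e : ℤ) * n - x = (e : ℤ) * n := by ring
  rw [this]
  exact Int.mul_ediv_cancel_left _ (by exact_mod_cast (by omega : e ≠ 0))

lemma cnt_eq_pre {A : Finset ℤ} {x : ℤ} {e : ℕ} (S : Finset ℤ) (he : 1 ≤ e) :
    cnt A x e S = ((pre A x e ∩ S).card : ℝ) := by
  unfold cnt
  congr 2
  ext n
  rw [Finset.mem_filter, Finset.mem_inter, mem_pre he, and_comm]

lemma scl_card {e : ℕ} (he : 1 ≤ e) (Θ : Finset ℝ) : (scl e Θ).card = Θ.card := by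
  unfold scl
  apply Finset.card_image_of_injective
  intro a b h
  have he' : ((e : ℝ)) ≠ 0 := by exact_mod_cast (by omega : e ≠ 0)
  exact mul_left_cancel₀ he' h

/-- `n ∈ B_{N/e}(eΘ, ρ)` iff `e n ∈ B_N(Θ, ρ)` -/
lemma mem_bohr_scl {e : ℕ} (he : 1 ≤ e) {N ρ : ℝ} {Θ : Finset ℝ} {n : ℤ} :
    n ∈ bohr (N / e) (scl e Θ) ρ ↔ (e : ℤ) * n ∈ bohr N Θ ρ := by
  have he' : (0 : ℝ) < (e : ℝ) := by exact_mod_cast (by omega : 0 < e)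
  rw [mem_bohr, mem_bohr]
  refine and_congr ?_ ?_
  · push_cast
    rw [abs_mul, abs_of_pos he', ← mul_div_assoc, le_div_iff₀ he', mul_comm]
  · unfold scl
    constructor
    · intro h θ hθ
      have := h _ (Finset.mem_image_of_mem _ hθ)
      push_cast
      rw [← mul_assoc, mul_comm θ]
      exact this
    · intro h θ' hθ'
      obtain ⟨θ, hθ, rfl⟩ := Finset.mem_image.1 hθ'
      have := h θ hθ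
      push_cast at this
      rw [← mul_assoc, mul_comm θ] at this
      exact this

/-! ### The scales -/

/-- The scales used at one point. -/
structure Scales (N : ℝ) (Θ : Finset ℝ) (ε₀ τ δ ρ₃ ρ₂ ρ₄ ρ₅ ρ₆ : ℝ) : Prop where
  h6 : 0 < ρ₆
  h65 : ρ₆ ≤ ρ₅
  h54 : ρ₅ ≤ ρ₄
  h42 : 8 * ρ₄ ≤ ρ₂
  h23 : 4 * ρ₂ ≤ kap Θ.card ε₀ * ρ₃
  r2 : Reg ε₀ N Θ ρ₂
  c2 : ((bohr N Θ (ρ₂ + 2 * ρ₄ + 2 * ρ₅)).card : ℝ) ≤ 2 * ((bohr N Θ ρ₂).card : ℝ)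
  c4 : ((bohr N Θ (ρ₄ + ρ₅ + 2 * pl τ δ * ρ₆ + ρ₆)).card : ℝ) ≤ 2 * ((bohr N Θ ρ₄).card : ℝ)
  c5 : ((bohr N Θ (ρ₅ + 2 * pl τ δ * ρ₆)).card : ℝ) ≤ 2 * ((bohr N Θ ρ₅).card : ℝ)
  r6 : Reg (pe τ δ) N Θ ρ₆
  low : kap Θ.card ε₀ ^ 4 * ρ₃ / (2048 * (pl τ δ + 1)) ≤ ρ₆

/-- Existence of the scales (from `S_reg`). -/
def S_scale : Prop := ∀ (N : ℝ) (Θ : Finset ℝ) (ρ₃ ε₀ τ δ : ℝ), 0 < N → 0 < ρ₃ → 0 < ε₀ → ε₀ ≤ 1 →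
  0 < τ → τ ≤ 1 / 2 → 0 < δ → δ ≤ 1 / 2 → ∃ ρ₂ ρ₄ ρ₅ ρ₆ : ℝ, Scales N Θ ε₀ τ δ ρ₃ ρ₂ ρ₄ ρ₅ ρ₆

/-! ### The parameters -/

/-- half the exponent `p` -/
noncomputable def jj (α : ℝ) : ℕ := ⌈4 * Real.log (2 / α)⌉₊

/-- the large exponent `q` -/
noncomputable def qq (α η : ℝ) : ℕ := ⌈(1000 + 10 * (jj α : ℝ)) / η⌉₊

/-- `D = min(1, (1+η)α)` -/
noncomputable def DD (α η : ℝ) : ℝ := min 1 ((1 + η) * α)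

/-- `τ = D^q/4` -/
noncomputable def tq (α η : ℝ) : ℝ := DD α η ^ qq α η / 4

/-- `δ = √η/20` -/
noncomputable def dq (η : ℝ) : ℝ := Real.sqrt η / 20

/-- Polynomial bounds of the parameters of the structure lemma in `L = log(2/ε₀)/η`. -/
def S_par1 : Prop := ∃ C₂ : ℕ, ∀ (α η ε₀ : ℝ), 0 < α → α ≤ 1 → 0 < η → η ≤ 1 / 10000 → 0 < ε₀ →
  ε₀ ≤ α ^ 4 * η / 100 →
  (pl (tq α η) (dq η) : ℝ) ≤ (Real.log (2 / ε₀) / η) ^ C₂ ∧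
  (pm (tq α η) (dq η) : ℝ) ≤ (Real.log (2 / ε₀) / η) ^ C₂ ∧
  Real.exp (-(Real.log (2 / ε₀) / η) ^ C₂) ≤ pe (tq α η) (dq η) ∧
  Real.exp (-(Real.log (2 / ε₀) / η) ^ C₂) ≤ dq η * tq α η

/-- Lower bound for the final radius. -/
def S_par2 : Prop := ∃ C₁ : ℕ, 10000 ≤ C₁ ∧ ∀ (C : ℕ), C₁ ≤ C → ∀ (R : ℕ) (α η ε₀ ρY ρt ρ₃ ρ₆ : ℝ),
  0 < α → α ≤ 1 → 0 < η → η ≤ 1 / 10000 → 0 < ε₀ → ε₀ ≤ α ^ 4 * η / 100 → 0 < ρY → ρY ≤ 1 →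
  (pm (tq α η) (dq η) : ℝ) ≤ (Real.log (2 / ε₀) / η) ^ C ∧
  (ρY * Real.exp (-(((R : ℝ) + 1 + Real.log (2 / ε₀) / η) ^ C) / 2) ≤ ρt → ρt / 2 ≤ ρ₃ →
    kap R ε₀ ^ 4 * ρ₃ / (2048 * (pl (tq α η) (dq η) + 1)) ≤ ρ₆ →
    ρY * Real.exp (-(((R : ℝ) + 1 + Real.log (2 / ε₀) / η) ^ C)) ≤ pr R (tq α η) (dq η) ρ₆)

/-! ### Averaging over `BY` -/

/-- Few `y` have small local density. -/
def S_few : Prop := ∀ (A S : Finset ℤ) (N : ℝ) (Θ : Finset ℝ) (ρ α η β ε₀ : ℝ) (x₀ d : ℤ) (e : ℕ),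
  0 < N → 0 < ρ → 0 < ε₀ → ε₀ ≤ 1 → 0 < α → 0 ≤ η → 0 < β → Reg ε₀ N Θ ρ → S.Nonempty →
  α * ((bohr N Θ ρ).card : ℝ) ≤ cnt A x₀ 1 (bohr N Θ ρ) →
  (∀ k ∈ S, d + (e : ℤ) * k ∈ bohr N Θ (kap Θ.card ε₀ * ρ)) →
  (∀ y ∈ bohr N Θ ρ, cnt A (x₀ + y + d) e S ≤ (1 + η) * α * (S.card : ℝ)) →
  β * α * (((bohr N Θ ρ).filter (fun y => cnt A (x₀ + y + d) e S < (1 - β) * α * (S.card : ℝ))).card : ℝ) ≤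
    (η * α + ε₀) * ((bohr N Θ ρ).card : ℝ)

/-- Localisation of `∑_k T(d + ek)`. -/
def S_avg : Prop := ∀ (A B₂ B₃ : Finset ℤ) (N : ℝ) (Θ : Finset ℝ) (ρ ε₀ : ℝ) (x₀ d : ℤ) (e : ℕ),
  0 < N → 0 < ρ → 0 < ε₀ → ε₀ ≤ 1 → 1 ≤ e → Reg ε₀ N Θ ρ →
  (∀ u ∈ B₂, (e : ℤ) * u ∈ bohr N Θ (kap Θ.card ε₀ * ρ)) →
  |(B₂.card : ℝ) * ∑ k ∈ B₃, TT A x₀ (bohr N Θ ρ) (d + (e : ℤ) * k) -
    ∑ y ∈ bohr N Θ ρ, lct (pre A (x₀ + y - d) e) (pre A (x₀ + y) e) (pre A (x₀ + y + d) e) B₂ B₃| ≤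
    ε₀ * ((bohr N Θ ρ).card : ℝ) * B₂.card * B₃.card

/-! ### One point -/

/-- The local count at one point (here `N`, `Θ` stand for `N/e`, `eΘ`). -/
def S_point : Prop := ∀ (A : Finset ℤ) (N : ℝ) (Θ : Finset ℝ) (ρ₂ ρ₃ ρ₄ ρ₅ ρ₆ α η ε₀ : ℝ) (x₁ x₂ x₃ : ℤ)
  (e : ℕ), 0 < N → 0 < ρ₃ → 0 < α → α ≤ 1 → 0 < η → η ≤ 1 / 10000 → 0 < ε₀ → ε₀ ≤ α ^ 4 * η / 100 → 1 ≤ e →
  Reg ε₀ N Θ ρ₃ → Scales N Θ ε₀ (tq α η) (dq η) ρ₃ ρ₂ ρ₄ ρ₅ ρ₆ →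
  (∀ x : ℤ, cnt A x e (bohr N Θ ρ₂) ≤ (1 + η) * α * ((bohr N Θ ρ₂).card : ℝ)) →
  (∀ x : ℤ, cnt A x e (bohr N Θ ρ₃) ≤ (1 + η) * α * ((bohr N Θ ρ₃).card : ℝ)) →
  (∀ (Θ' : Finset ℝ) (ρ' : ℝ), Θ ⊆ Θ' → Θ'.card ≤ Θ.card + pm (tq α η) (dq η) →
    pr Θ.card (tq α η) (dq η) ρ₆ ≤ ρ' → ρ' ≤ 2 * pr Θ.card (tq α η) (dq η) ρ₆ →
    Reg ε₀ (N / 2) Θ' ρ' → ∀ x : ℤ,
    cnt A x (2 * e) (bohr (N / 2) Θ' ρ') ≤ (1 + η) * α * ((bohr (N / 2) Θ' ρ').card : ℝ)) →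
  lct (pre A x₁ e) (pre A x₂ e) (pre A x₃ e) (bohr N Θ ρ₂) (bohr N Θ ρ₃) ≤
      200 * α ^ 3 * ((bohr N Θ ρ₂).card : ℝ) * ((bohr N Θ ρ₃).card : ℝ) ∧
  ((1 - Real.sqrt η) * α * ((bohr N Θ ρ₃).card : ℝ) ≤ cnt A x₁ e (bohr N Θ ρ₃) →
    (1 - Real.sqrt η) * α * ((bohr N Θ ρ₂).card : ℝ) ≤ cnt A x₂ e (bohr N Θ ρ₂) →
    (1 - Real.sqrt η) * α * ((bohr N Θ ρ₃).card : ℝ) ≤ cnt A x₃ e (bohr N Θ ρ₃) →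
    |lct (pre A x₁ e) (pre A x₂ e) (pre A x₃ e) (bohr N Θ ρ₂) (bohr N Θ ρ₃) -
        α ^ 3 * ((bohr N Θ ρ₂).card : ℝ) * ((bohr N Θ ρ₃).card : ℝ)| ≤
      2000 * Real.sqrt η * α ^ 3 * ((bohr N Θ ρ₂).card : ℝ) * ((bohr N Θ ρ₃).card : ℝ))

end Pool.Agent.APP
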